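import Pool.Agent.N389.CI.Resid

set_option autoImplicit false
set_option linter.unusedSectionVars false

/-! # Exponential sums over the points of systems of additive equations modulo a prime -/

namespace Pool.Agent.N389.CI

open Finset Polynomial
open Pool.Agent.N725.JC

section

variable {p : ℕ} [Fact p.Prime]

lemma char_sum (h : ZMod p) : ∑ y : ZMod p, (ZMod.stdAddChar (h * y) : ℂ) =
    if h = 0 then (p : ℂ) else 0 := by
  have h2 := AddChar.sum_mulShift (ψ := ZMod.stdAddChar (N := p)) h (ZMod.isPrimitive_stdAddChar p)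
  have h3 : ∑ y : ZMod p, (ZMod.stdAddChar (h * y) : ℂ) = ∑ y : ZMod p, (ZMod.stdAddChar (y * h) : ℂ) :=
    Finset.sum_congr rfl fun y _ => by rw [mul_comm]
  rw [h3, h2, ZMod.card]
  split_ifs <;> simp

/-- orthogonality in several variables -/
lemma orth (K : ℕ) (y : Fin K → ZMod p) :
    (if ∀ k, y k = 0 then (1 : ℂ) else 0) =
      ((p : ℂ)⁻¹) ^ K * ∑ t : Fin K → ZMod p, (ZMod.stdAddChar (∑ k, t k * y k) : ℂ) := by
  have hp0 : (p : ℂ) ≠ 0 := by
    have := (Fact.out : p.Prime).ne_zero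
    exact_mod_cast this
  have h1 : ∑ t : Fin K → ZMod p, (ZMod.stdAddChar (∑ k, t k * y k) : ℂ) =
      ∏ k, ∑ a : ZMod p, (ZMod.stdAddChar (a * y k) : ℂ) := by
    rw [Finset.prod_univ_sum, Fintype.piFinset_univ]
    exact Finset.sum_congr rfl fun t _ => stdAddChar_sum _ _
  have h2 : ∀ k, ∑ a : ZMod p, (ZMod.stdAddChar (a * y k) : ℂ) = if y k = 0 then (p : ℂ) else 0 := by
    intro k
    rw [← char_sum]
    exact Finset.sum_congr rfl fun a _ => by rw [mul_comm]
  rw [h1]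
  simp_rw [h2]
  rw [Finset.prod_ite_zero, Finset.prod_const, card_univ, Fintype.card_fin]
  split_ifs with h3 h4 h4
  · rw [inv_pow, inv_mul_cancel₀ (pow_ne_zero _ hp0)]
  · exact absurd (fun k _ => h3 k) h4
  · exact absurd (fun k => h4 k (mem_univ k)) h3
  · rw [mul_zero]

/-- the points modulo `p` of a system of additive equations -/
noncomputable def pts (r K : ℕ) (f : Fin K → Fin r → (ZMod p)[X]) (n : Fin K → ZMod p) :
    Finset (Fin r → ZMod p) :=
  univ.filter fun x => ∀ k, ∑ i, (f k i).eval (x i) = n k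

/-- the complete sums -/
noncomputable def G (r K : ℕ) (f : Fin K → Fin r → (ZMod p)[X]) (t : Fin K → ZMod p)
    (h : Fin r → ZMod p) (i : Fin r) : ℂ :=
  ∑ y : ZMod p, ZMod.stdAddChar ((∑ k, t k * (f k i).eval y) + h i * y)

lemma pts_sum (r K : ℕ) (f : Fin K → Fin r → (ZMod p)[X]) (n : Fin K → ZMod p) (h : Fin r → ZMod p) :
    ∑ x ∈ pts r K f n, (ZMod.stdAddChar (∑ i, h i * x i) : ℂ) =
      ((p : ℂ)⁻¹) ^ K * ∑ t : Fin K → ZMod p,
        ZMod.stdAddChar (-(∑ k, t k * n k)) * ∏ i, G r K f t h i := by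
  have h1 : ∑ x ∈ pts r K f n, (ZMod.stdAddChar (∑ i, h i * x i) : ℂ) =
      ∑ x : Fin r → ZMod p, ((p : ℂ)⁻¹) ^ K * ∑ t : Fin K → ZMod p,
        (ZMod.stdAddChar (∑ k, t k * ((∑ i, (f k i).eval (x i)) - n k)) : ℂ) *
          ZMod.stdAddChar (∑ i, h i * x i) := by
    unfold pts
    rw [Finset.sum_filter]
    refine Finset.sum_congr rfl fun x _ => ?_
    have h2 := orth K (fun k => (∑ i, (f k i).eval (x i)) - n k)
    simp only [sub_eq_zero] at h2
    rw [← Finset.sum_mul, ← mul_assoc, ← h2]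
    split_ifs <;> simp
  rw [h1, ← Finset.mul_sum, Finset.sum_comm]
  congr 1
  refine Finset.sum_congr rfl fun t _ => ?_
  unfold G
  rw [Finset.prod_univ_sum, Fintype.piFinset_univ, Finset.mul_sum]
  refine Finset.sum_congr rfl fun x _ => ?_
  rw [← stdAddChar_sum, ← AddChar.map_add_eq_mul, ← AddChar.map_add_eq_mul]
  congr 1
  rw [Finset.sum_add_distrib]
  have h3 : ∑ k, t k * ((∑ i, (f k i).eval (x i)) - n k) =
      (∑ i, ∑ k, t k * (f k i).eval (x i)) - ∑ k, t k * n k := by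
    rw [Finset.sum_comm, ← Finset.sum_sub_distrib]
    refine Finset.sum_congr rfl fun k _ => ?_
    rw [mul_sub, Finset.mul_sum]
  rw [h3]
  ring

lemma G_zero (r K : ℕ) (f : Fin K → Fin r → (ZMod p)[X]) (h : Fin r → ZMod p) (i : Fin r) :
    G r K f 0 h i = if h i = 0 then (p : ℂ) else 0 := by
  unfold G
  rw [← char_sum]
  refine Finset.sum_congr rfl fun y _ => ?_
  simp

lemma G_le (r K : ℕ) (f : Fin K → Fin r → (ZMod p)[X]) (D : ℝ) (hD1 : 1 ≤ D) (hDp : D < p)
    (hD : ∀ k i, ((f k i).natDegree : ℝ) ≤ D)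
    (hf : ∀ t : Fin K → ZMod p, t ≠ 0 → ∀ i, 2 ≤ (∑ k, C (t k) * f k i).natDegree)
    (t : Fin K → ZMod p) (ht : t ≠ 0) (h : Fin r → ZMod p) (i : Fin r) :
    ‖G r K f t h i‖ ≤ D * Real.sqrt p := by
  obtain ⟨P, hP⟩ : ∃ P : (ZMod p)[X], P = (∑ k, C (t k) * f k i) + C (h i) * X := ⟨_, rfl⟩
  have h1 := hf t ht i
  have hX : (C (h i) * X : (ZMod p)[X]).natDegree ≤ 1 := natDegree_C_mul_le _ _ |>.trans natDegree_X_le
  have h2 : P.natDegree = (∑ k, C (t k) * f k i).natDegree := by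
    rw [hP]
    exact natDegree_add_eq_left_of_natDegree_lt (by omega)
  have h3 : ((∑ k, C (t k) * f k i).natDegree : ℝ) ≤ D := by
    obtain ⟨D', hD'⟩ : ∃ D' : ℕ, D' = ⌊D⌋₊ := ⟨_, rfl⟩
    have h4 : (∑ k, C (t k) * f k i).natDegree ≤ D' :=
      natDegree_sum_le_of_forall_le _ _ fun k _ => (natDegree_C_mul_le _ _).trans (by
        rw [hD']
        exact Nat.le_floor (hD k i))
    calc ((∑ k, C (t k) * f k i).natDegree : ℝ) ≤ D' := by exact_mod_cast h4
      _ ≤ D := by rw [hD']; exact Nat.floor_le (by linarith)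
  have h5 : ¬ p ∣ P.natDegree := by
    intro hd
    have h6 := Nat.le_of_dvd (by omega) hd
    rw [h2] at h6
    have : (p : ℝ) ≤ ((∑ k, C (t k) * f k i).natDegree : ℝ) := by exact_mod_cast h6
    linarith
  have h6 := Pool.Agent.Y951.WP.weil_le p P h5 (ZMod.isPrimitive_stdAddChar p)
  have h7 : ∀ y : ZMod p, P.eval y = (∑ k, t k * (f k i).eval y) + h i * y := by
    intro y
    rw [hP, eval_add, eval_finsetSum]
    congr 1
    · refine Finset.sum_congr rfl fun k _ => ?_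
      rw [eval_mul, eval_C]
    · rw [eval_mul, eval_C, eval_X]
  simp_rw [h7] at h6
  unfold G
  refine h6.trans ?_
  refine mul_le_mul_of_nonneg_right ?_ (Real.sqrt_nonneg _)
  rw [h2]
  refine le_trans ?_ h3
  exact_mod_cast Nat.sub_le _ _

/-- the exponential sums over the points -/
theorem pts_est (r K : ℕ) (f : Fin K → Fin r → (ZMod p)[X]) (D : ℝ) (hD1 : 1 ≤ D) (hDp : D < p)
    (hD : ∀ k i, ((f k i).natDegree : ℝ) ≤ D)
    (hf : ∀ t : Fin K → ZMod p, t ≠ 0 → ∀ i, 2 ≤ (∑ k, C (t k) * f k i).natDegree)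
    (n : Fin K → ZMod p) (h : Fin r → ZMod p) :
    ‖∑ x ∈ pts r K f n, (ZMod.stdAddChar (∑ i, h i * x i) : ℂ) -
      (if h = 0 then ((p : ℂ)⁻¹) ^ K * (p : ℂ) ^ r else 0)‖ ≤ (D * Real.sqrt p) ^ r := by
  have hp0 : (0 : ℝ) < p := by exact_mod_cast (Fact.out : p.Prime).pos
  rw [pts_sum, ← Finset.add_sum_erase univ _ (mem_univ (0 : Fin K → ZMod p))]
  have h1 : ZMod.stdAddChar (-(∑ k, (0 : Fin K → ZMod p) k * n k)) * ∏ i, G r K f 0 h i =
      if h = 0 then (p : ℂ) ^ r else 0 := by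
    simp_rw [G_zero]
    rw [Finset.prod_ite_zero, Finset.prod_const, card_univ, Fintype.card_fin]
    simp only [Pi.zero_apply, zero_mul, Finset.sum_const_zero, neg_zero, AddChar.map_zero_eq_one,
      one_mul]
    congr 1
    simp only [eq_iff_iff]
    constructor
    · intro h2
      funext i
      exact h2 i (mem_univ i)
    · intro h2 i _
      rw [h2]
      rfl
  rw [h1, mul_add]
  have h2 : ((p : ℂ)⁻¹) ^ K * (if h = 0 then (p : ℂ) ^ r else 0) =
      (if h = 0 then ((p : ℂ)⁻¹) ^ K * (p : ℂ) ^ r else 0) := by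
    split_ifs <;> simp
  rw [h2, add_sub_cancel_left, norm_mul, norm_pow, norm_inv, Complex.norm_natCast]
  have h3 : ‖∑ t ∈ univ.erase (0 : Fin K → ZMod p),
      ZMod.stdAddChar (-(∑ k, t k * n k)) * ∏ i, G r K f t h i‖ ≤
      (p : ℝ) ^ K * (D * Real.sqrt p) ^ r := by
    refine (norm_sum_le _ _).trans ?_
    calc ∑ t ∈ univ.erase (0 : Fin K → ZMod p),
          ‖ZMod.stdAddChar (-(∑ k, t k * n k)) * ∏ i, G r K f t h i‖
        ≤ ∑ t ∈ univ.erase (0 : Fin K → ZMod p), (D * Real.sqrt p) ^ r := by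
          refine Finset.sum_le_sum fun t ht => ?_
          rw [norm_mul, AddChar.norm_apply, one_mul, norm_prod]
          calc ∏ i, ‖G r K f t h i‖ ≤ ∏ _i : Fin r, (D * Real.sqrt p) :=
                Finset.prod_le_prod (fun _ _ => norm_nonneg _) fun i _ =>
                  G_le r K f D hD1 hDp hD hf t (Finset.ne_of_mem_erase ht) h i
            _ = _ := by simp
      _ ≤ ∑ t : Fin K → ZMod p, (D * Real.sqrt p) ^ r :=
          Finset.sum_le_sum_of_subset_of_nonneg (Finset.erase_subset _ _) fun _ _ _ => by positivity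
      _ = (p : ℝ) ^ K * (D * Real.sqrt p) ^ r := by
          rw [Finset.sum_const, card_univ, nsmul_eq_mul, Fintype.card_fun, ZMod.card, Fintype.card_fin]
          push_cast
          ring
  calc ((p : ℝ)⁻¹) ^ K * _ ≤ ((p : ℝ)⁻¹) ^ K * ((p : ℝ) ^ K * (D * Real.sqrt p) ^ r) :=
        mul_le_mul_of_nonneg_left h3 (by positivity)
    _ = (D * Real.sqrt p) ^ r := by
        rw [← mul_assoc, inv_pow, inv_mul_cancel₀ (pow_ne_zero _ hp0.ne'), one_mul]

end

end Pool.Agent.N389.CI
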