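import Pool.Agent.N389.CI.Four

set_option autoImplicit false
set_option linter.unusedSectionVars false

/-! # Record prime gaps at the points of systems of additive equations modulo a prime -/

namespace Pool.Agent.N389.CI

open Finset Filter Polynomial
open Pool.Agent.H256R2.SC (ff)
open Pool.Agent.N725.JC

open scoped Classical in
theorem main (r K E : ℕ) (hr : 1 ≤ r) (δ : ℝ) (hδ : 0 < δ) (hδ1 : δ ≤ 1) :
    ∃ c : ℝ, 0 < c ∧ ∀ᶠ p : ℕ in atTop, ∀ [Fact p.Prime], ∀ D : ℕ, 1 ≤ D →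
      ∀ f : Fin K → Fin r → (ZMod p)[X], (∀ k i, (f k i).natDegree ≤ D) →
      (∀ t : Fin K → ZMod p, t ≠ 0 → ∀ i, 2 ≤ (∑ k, C (t k) * f k i).natDegree) →
      ∀ (n : Fin K → ZMod p) (M : Fin r → ℤ) (L : Fin r → ℕ), (∀ i, (p : ℝ) ^ δ ≤ L i ∧ L i ≤ p) →
      (D : ℝ) ^ r * (p : ℝ) ^ ((r : ℝ) / 2 + K + δ) ≤ ∏ i, (L i : ℝ) →
      (∏ i, (L i : ℝ)) / (p : ℝ) ^ (K + δ) ≤
        ((pts r K f n).filter (fun x => (∀ i, M i < rep (M i) (L i) (x i) ∧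
          rep (M i) (L i) (x i) ≤ M i + L i ∧ ((rep (M i) (L i) (x i) : ℤ) : ZMod p) = x i) ∧
        ∀ e : Fin r → ℕ, (∀ i, e i ≤ E) → Finset.univ.gcd e = 1 → ∀ m : ℤ,
          |(m : ℝ) - ∏ i, (rep (M i) (L i) (x i) : ℝ) ^ e i| ≤ c * ff p →
            ∃ l : ℕ, l.Prime ∧ (l : ℝ) ≤ (p : ℝ) ^ δ ∧ (l : ℤ) ∣ m)).card := by
  obtain ⟨c, hc, hev⟩ := resid2 r E (δ / 2) (by positivity) (by linarith)
  refine ⟨c, hc, ?_⟩
  have hT : Tendsto (fun p : ℕ => (p : ℝ)) atTop atTop := tendsto_natCast_atTop_atTop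
  have e1 : ∀ᶠ x : ℝ in atTop, 2 ≤ x ^ (δ / 2) :=
    (tendsto_rpow_atTop (by positivity)).eventually_ge_atTop 2
  filter_upwards [hev, hT.eventually e1, eventually_ge_atTop 2] with p hp1 hp2 hp3
  intro hpF D hD1 f hD hf n M L hL hV
  have hp : p.Prime := hpF.out
  have hpr1 : (1 : ℝ) < p := by exact_mod_cast hp.one_lt
  have hpr0 : (0 : ℝ) < p := by linarith
  have hmono : ∀ a b : ℝ, a ≤ b → (p : ℝ) ^ a ≤ (p : ℝ) ^ b := fun a b hab =>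
    Real.rpow_le_rpow_of_exponent_le hpr1.le hab
  have hD1R : (1 : ℝ) ≤ D := by exact_mod_cast hD1
  -- the size of the degree
  have hPrp : ∏ i, (L i : ℝ) ≤ (p : ℝ) ^ r := by
    calc ∏ i, (L i : ℝ) ≤ ∏ _i : Fin r, (p : ℝ) :=
          Finset.prod_le_prod (fun _ _ => Nat.cast_nonneg _) fun i _ => by exact_mod_cast (hL i).2
      _ = _ := by simp
  have hDr : (D : ℝ) ^ r * (p : ℝ) ^ ((r : ℝ) / 2 + K + δ) ≤ (p : ℝ) ^ (r : ℝ) := by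
    rw [Real.rpow_natCast]
    exact hV.trans hPrp
  have hDr2 : (D : ℝ) ^ r * (p : ℝ) ^ ((r : ℝ) / 2) ≤ (p : ℝ) ^ ((r : ℝ) - K - δ) := by
    have h1 : (p : ℝ) ^ (r : ℝ) = (p : ℝ) ^ ((r : ℝ) - K - δ) * (p : ℝ) ^ (K + δ) := by
      rw [← Real.rpow_add hpr0]; congr 1; ring
    have h2 : (p : ℝ) ^ ((r : ℝ) / 2 + K + δ) = (p : ℝ) ^ ((r : ℝ) / 2) * (p : ℝ) ^ (K + δ) := by
      rw [← Real.rpow_add hpr0]; congr 1; ring
    rw [h1, h2, ← mul_assoc] at hDr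
    exact le_of_mul_le_mul_right hDr (Real.rpow_pos_of_pos hpr0 _)
  have hDp : (D : ℝ) < p := by
    by_contra hcon
    push Not at hcon
    have h1 : (p : ℝ) ^ (r : ℝ) ≤ (D : ℝ) ^ r := by
      rw [Real.rpow_natCast]
      exact pow_le_pow_left₀ hpr0.le hcon r
    have h2 : 1 < (p : ℝ) ^ ((r : ℝ) / 2 + K + δ) :=
      Real.one_lt_rpow hpr1 (by positivity)
    have h3 : 0 < (D : ℝ) ^ r := by positivity
    nlinarith
  have hEr : ((D : ℝ) * Real.sqrt p) ^ r = (D : ℝ) ^ r * (p : ℝ) ^ ((r : ℝ) / 2) := by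
    rw [mul_pow, Real.sqrt_eq_rpow, ← Real.rpow_natCast ((p : ℝ) ^ (1 / 2 : ℝ)),
      ← Real.rpow_mul hpr0.le]
    congr 2
    ring
  obtain ⟨S, hS⟩ : ∃ S, S = pts r K f n := ⟨_, rfl⟩
  have hest := pts_est r K f D hD1R hDp (fun k i => by exact_mod_cast hD k i) hf n
  rw [← hS, hEr] at hest
  -- the number of points
  have hcard : |(S.card : ℝ) - (p : ℝ) ^ ((r : ℝ) - K)| ≤ (D : ℝ) ^ r * (p : ℝ) ^ ((r : ℝ) / 2) := by
    have h1 := hest 0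
    simp only [Pi.zero_apply, zero_mul, Finset.sum_const_zero, AddChar.map_zero_eq_one,
      if_true, Finset.sum_const, nsmul_eq_mul, mul_one] at h1
    have h2 : ((S.card : ℂ) - ((p : ℂ)⁻¹) ^ K * (p : ℂ) ^ r) =
        (((S.card : ℝ) - (p : ℝ) ^ ((r : ℝ) - K) : ℝ) : ℂ) := by
      have h3 : (p : ℝ) ^ ((r : ℝ) - K) = ((p : ℝ)⁻¹) ^ K * (p : ℝ) ^ r := by
        rw [Real.rpow_sub hpr0, Real.rpow_natCast, Real.rpow_natCast, inv_pow]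
        ring
      rw [h3]
      push_cast
      ring
    rw [h2, Complex.norm_real, Real.norm_eq_abs] at h1
    exact h1
  have h2p : (p : ℝ) ^ ((r : ℝ) - K - δ) * 2 ≤ (p : ℝ) ^ ((r : ℝ) - K) := by
    calc (p : ℝ) ^ ((r : ℝ) - K - δ) * 2 ≤ (p : ℝ) ^ ((r : ℝ) - K - δ) * (p : ℝ) ^ (δ / 2) :=
          mul_le_mul_of_nonneg_left hp2 (by positivity)
      _ = (p : ℝ) ^ ((r : ℝ) - K - δ + δ / 2) := (Real.rpow_add hpr0 _ _).symm
      _ ≤ _ := hmono _ _ (by linarith)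
  have hSlow : (p : ℝ) ^ ((r : ℝ) - K) / 2 ≤ S.card := by
    have := (abs_le.1 hcard).1
    linarith
  have hS0 : (0 : ℝ) < S.card := lt_of_lt_of_le (by positivity) hSlow
  have hSne : S.Nonempty := by
    rw [← Finset.card_pos]
    exact_mod_cast hS0
  have hsav : ∀ h : Fin r → ZMod p, h ≠ 0 →
      ‖∑ x ∈ S, (ZMod.stdAddChar (∑ i, h i * x i) : ℂ)‖ ≤ (D : ℝ) ^ r * (p : ℝ) ^ ((r : ℝ) / 2) := by
    intro h hh
    have h1 := hest h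
    rwa [if_neg hh, sub_zero] at h1
  have hSr : (p : ℝ) ^ (-(K : ℝ)) / 2 ≤ S.card / (p : ℝ) ^ r := by
    rw [le_div_iff₀ (pow_pos hpr0 r)]
    calc (p : ℝ) ^ (-(K : ℝ)) / 2 * (p : ℝ) ^ r = (p : ℝ) ^ ((r : ℝ) - K) / 2 := by
          rw [sub_eq_add_neg, Real.rpow_add hpr0, Real.rpow_natCast]
          ring
      _ ≤ _ := hSlow
  have hPr0 : 0 ≤ ∏ i, (L i : ℝ) := Finset.prod_nonneg fun i _ => Nat.cast_nonneg _
  have hmain := hp1 (Fin r → ZMod p) S (fun i x => x i) M L _ (by positivity) hSne hsav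
    (fun i => ⟨(hmono _ _ (by linarith)).trans (hL i).1, (hL i).2⟩)
    (by
      calc (D : ℝ) ^ r * (p : ℝ) ^ ((r : ℝ) / 2) * (p : ℝ) ^ (δ / 2)
          ≤ ((D : ℝ) ^ r * (p : ℝ) ^ ((r : ℝ) / 2 + K + δ)) * ((p : ℝ) ^ (-(K : ℝ)) / 2) := by
            have h1 : (p : ℝ) ^ ((r : ℝ) / 2) * (p : ℝ) ^ (δ / 2) ≤
                (p : ℝ) ^ ((r : ℝ) / 2 + K + δ) * ((p : ℝ) ^ (-(K : ℝ)) / 2) := by
              rw [← Real.rpow_add hpr0, mul_div_assoc', ← Real.rpow_add hpr0,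
                le_div_iff₀ (by norm_num)]
              calc (p : ℝ) ^ ((r : ℝ) / 2 + δ / 2) * 2
                  ≤ (p : ℝ) ^ ((r : ℝ) / 2 + δ / 2) * (p : ℝ) ^ (δ / 2) :=
                    mul_le_mul_of_nonneg_left hp2 (by positivity)
                _ = (p : ℝ) ^ ((r : ℝ) / 2 + δ / 2 + δ / 2) := (Real.rpow_add hpr0 _ _).symm
                _ ≤ _ := hmono _ _ (by linarith)
            calc (D : ℝ) ^ r * (p : ℝ) ^ ((r : ℝ) / 2) * (p : ℝ) ^ (δ / 2)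
                = (D : ℝ) ^ r * ((p : ℝ) ^ ((r : ℝ) / 2) * (p : ℝ) ^ (δ / 2)) := by ring
              _ ≤ (D : ℝ) ^ r * ((p : ℝ) ^ ((r : ℝ) / 2 + K + δ) * ((p : ℝ) ^ (-(K : ℝ)) / 2)) :=
                  mul_le_mul_of_nonneg_left h1 (by positivity)
              _ = _ := by ring
        _ ≤ (∏ i, (L i : ℝ)) * (S.card / (p : ℝ) ^ r) :=
            mul_le_mul hV hSr (by positivity) hPr0
        _ = _ := by ring)
  rw [← hS]
  have hlow : (∏ i, (L i : ℝ)) / (p : ℝ) ^ (K + δ) ≤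
      (∏ i, (L i : ℝ)) * S.card / (p : ℝ) ^ r * (p : ℝ) ^ (-(δ / 2)) := by
    have h1 : (1 : ℝ) / (p : ℝ) ^ (K + δ) ≤ S.card / (p : ℝ) ^ r * (p : ℝ) ^ (-(δ / 2)) := by
      have h2 : (1 : ℝ) / (p : ℝ) ^ (K + δ) = (p : ℝ) ^ (-(K : ℝ) - δ) := by
        rw [one_div, ← Real.rpow_neg hpr0.le]
        congr 1
        ring
      rw [h2]
      calc (p : ℝ) ^ (-(K : ℝ) - δ) ≤ (p : ℝ) ^ (-(K : ℝ)) / 2 * (p : ℝ) ^ (-(δ / 2)) := by
            rw [div_mul_eq_mul_div, le_div_iff₀ (by norm_num), ← Real.rpow_add hpr0]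
            calc (p : ℝ) ^ (-(K : ℝ) - δ) * 2 ≤ (p : ℝ) ^ (-(K : ℝ) - δ) * (p : ℝ) ^ (δ / 2) :=
                  mul_le_mul_of_nonneg_left hp2 (by positivity)
              _ = (p : ℝ) ^ (-(K : ℝ) - δ + δ / 2) := (Real.rpow_add hpr0 _ _).symm
              _ ≤ _ := hmono _ _ (by linarith)
        _ ≤ _ := mul_le_mul_of_nonneg_right hSr (by positivity)
    calc (∏ i, (L i : ℝ)) / (p : ℝ) ^ (K + δ) = (∏ i, (L i : ℝ)) * (1 / (p : ℝ) ^ (K + δ)) := by ring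
      _ ≤ (∏ i, (L i : ℝ)) * (S.card / (p : ℝ) ^ r * (p : ℝ) ^ (-(δ / 2))) :=
          mul_le_mul_of_nonneg_left h1 hPr0
      _ = _ := by ring
  refine (hlow.trans hmain).trans ?_
  rw [Nat.cast_le]
  apply Finset.card_le_card
  intro x hx
  rw [mem_filter] at hx ⊢
  refine ⟨hx.1, hx.2.1, fun e he hg m hm => ?_⟩
  obtain ⟨l, h1, h2, h3⟩ := hx.2.2 e he hg m hm
  exact ⟨l, h1, h2.trans (hmono _ _ (by linarith)), h3⟩

end Pool.Agent.N389.CI
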