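import Pool.Agent.N725.JC.Main

set_option autoImplicit false
set_option linter.unusedSectionVars false

/-! # Record prime gaps at the members of families of vectors modulo a prime with small exponential sums

The criterion of `Pool.Agent.N725.JC.Main` for families of any size and any saving: the monomials of the
coordinates of many members of the family are at the centre of record prime-free intervals. -/

namespace Pool.Agent.N389.CI

open Finset Filter
open Pool.Agent.H256R2.SC (ff)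
open Pool.Agent.N725.JC

/-- products of relatively close numbers -/
lemma prod_rel {ι : Type} (s : Finset ι) (a b : ι → ℝ) (η : ℝ) (hη0 : 0 ≤ η) (hη1 : η ≤ 1)
    (ha : ∀ i ∈ s, 0 ≤ a i) (hb : ∀ i ∈ s, 0 ≤ b i) (hab : ∀ i ∈ s, |a i - b i| ≤ η * b i) :
    |∏ i ∈ s, a i - ∏ i ∈ s, b i| ≤ ((2 : ℝ) ^ s.card - 1) * η * ∏ i ∈ s, b i := by
  classical
  induction s using Finset.induction_on with
  | empty => simp
  | insert j s hj ih =>
    rw [Finset.prod_insert hj, Finset.prod_insert hj, Finset.card_insert_of_notMem hj]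
    have ih' := ih (fun i hi => ha i (mem_insert_of_mem hi)) (fun i hi => hb i (mem_insert_of_mem hi))
      (fun i hi => hab i (mem_insert_of_mem hi))
    have hP0 : 0 ≤ ∏ i ∈ s, b i := Finset.prod_nonneg fun i hi => hb i (mem_insert_of_mem hi)
    have hbj := hb j (mem_insert_self _ _)
    have haj := ha j (mem_insert_self _ _)
    have habj := hab j (mem_insert_self _ _)
    have haj2 : a j ≤ (1 + η) * b j := by
      have := (abs_le.1 habj).2
      linarith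
    have h4 : (0 : ℝ) ≤ (2 : ℝ) ^ s.card - 1 := by
      have : (1 : ℝ) ≤ (2 : ℝ) ^ s.card := one_le_pow₀ (by norm_num)
      linarith
    have e : a j * ∏ i ∈ s, a i - b j * ∏ i ∈ s, b i =
        a j * (∏ i ∈ s, a i - ∏ i ∈ s, b i) + (a j - b j) * ∏ i ∈ s, b i := by ring
    rw [e]
    refine (abs_add_le _ _).trans ?_
    rw [abs_mul, abs_mul, abs_of_nonneg haj, abs_of_nonneg hP0]
    have h1 : a j * |∏ i ∈ s, a i - ∏ i ∈ s, b i| ≤
        ((1 + η) * b j) * (((2 : ℝ) ^ s.card - 1) * η * ∏ i ∈ s, b i) :=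
      mul_le_mul haj2 ih' (abs_nonneg _) (by positivity)
    have h2 : |a j - b j| * ∏ i ∈ s, b i ≤ η * b j * ∏ i ∈ s, b i :=
      mul_le_mul_of_nonneg_right habj hP0
    have h3 : 0 ≤ b j * (η * ∏ i ∈ s, b i) := by positivity
    have h5 : (1 + η) * b j * (((2 : ℝ) ^ s.card - 1) * η * ∏ i ∈ s, b i) + η * b j * ∏ i ∈ s, b i ≤
        ((2 : ℝ) ^ (s.card + 1) - 1) * η * (b j * ∏ i ∈ s, b i) := by
      rw [pow_succ]
      have h6 : (1 + η) * b j * (((2 : ℝ) ^ s.card - 1) * η * ∏ i ∈ s, b i) +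
          η * b j * ∏ i ∈ s, b i =
          (b j * (η * ∏ i ∈ s, b i)) * ((1 + η) * ((2 : ℝ) ^ s.card - 1) + 1) := by ring
      have h7 : ((2 : ℝ) ^ s.card * 2 - 1) * η * (b j * ∏ i ∈ s, b i) =
          (b j * (η * ∏ i ∈ s, b i)) * (2 * ((2 : ℝ) ^ s.card - 1) + 1) := by ring
      rw [h6, h7]
      apply mul_le_mul_of_nonneg_left _ h3
      nlinarith
    linarith

section

variable {p : ℕ} [Fact p.Prime]

/-- **the count**: members of a family with the coordinates in classes of intervals -/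
theorem win_count2 {α : Type} (k : ℕ) (S : Finset α) (F : Fin k → α → ZMod p)
    (E : ℝ) (hE0 : 0 ≤ E)
    (hE : ∀ h : Fin k → ZMod p, h ≠ 0 → ‖∑ x ∈ S, (ZMod.stdAddChar (∑ i, h i * F i x) : ℂ)‖ ≤ E)
    (q : ℕ) (hq : 1 ≤ q) (hqp : q < p) (A r : Fin k → ℤ) (H : Fin k → ℕ) (hH : ∀ i, H i ≤ p)
    (B : ℝ) (hqB : (q : ℝ) ≤ B) (hB : ∀ i, B ≤ H i) :
    |((S.filter (fun x => ∀ i, F i x ∈ win p q (A i) (r i) (H i))).card : ℝ) -
      (∏ i, (H i : ℝ)) * S.card / (p : ℝ) ^ k / (q : ℝ) ^ k| ≤ E * (2 + Real.log p) ^ k +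
        (2 : ℝ) ^ k * (q / B) * ((∏ i, (H i : ℝ)) * S.card / (p : ℝ) ^ k / (q : ℝ) ^ k) := by
  classical
  have hp0 : (0 : ℝ) < p := by exact_mod_cast (Fact.out : p.Prime).pos
  have hp1 : (1 : ℝ) ≤ p := by exact_mod_cast (Fact.out : p.Prime).one_lt.le
  have hq0 : (0 : ℝ) < q := by exact_mod_cast hq
  have hq1 : (1 : ℝ) ≤ q := by exact_mod_cast hq
  have hB0 : 0 < B := by linarith
  have h1 := fourier_count k S F (fun i => win p q (A i) (r i) (H i)) E (p * (2 + Real.log p)) hE0 hE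
    (fun i => sum_win hq hqp (hH i))
  rw [mul_div_cancel_left₀ _ hp0.ne'] at h1
  have h2 := prod_rel (univ : Finset (Fin k)) (fun i => ((win p q (A i) (r i) (H i)).card : ℝ))
    (fun i => (H i : ℝ) / q) (q / B) (by positivity) (by rw [div_le_one hB0]; exact hqB)
    (fun i _ => Nat.cast_nonneg _)
    (fun i _ => by positivity)
    (fun i _ => (card_win hq (hH i)).trans (by
      have h3 := hB i
      have e : (q : ℝ) / B * ((H i : ℝ) / q) = H i / B := by field_simp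
      rw [e, le_div_iff₀ hB0, one_mul]
      exact h3))
  rw [card_univ, Fintype.card_fin, Finset.prod_div_distrib, Finset.prod_const, card_univ,
    Fintype.card_fin] at h2
  have hPr0 : 0 ≤ ∏ i, (H i : ℝ) := Finset.prod_nonneg fun i _ => Nat.cast_nonneg _
  have h3 : |(∏ i, ((win p q (A i) (r i) (H i)).card : ℝ)) * S.card / (p : ℝ) ^ k -
      (∏ i, (H i : ℝ)) * S.card / (p : ℝ) ^ k / (q : ℝ) ^ k| ≤
        (2 : ℝ) ^ k * (q / B) * ((∏ i, (H i : ℝ)) * S.card / (p : ℝ) ^ k / (q : ℝ) ^ k) := by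
    have e : (∏ i, ((win p q (A i) (r i) (H i)).card : ℝ)) * S.card / (p : ℝ) ^ k -
        (∏ i, (H i : ℝ)) * S.card / (p : ℝ) ^ k / (q : ℝ) ^ k =
        (∏ i, ((win p q (A i) (r i) (H i)).card : ℝ) - (∏ i, (H i : ℝ)) / (q : ℝ) ^ k) * S.card /
          (p : ℝ) ^ k := by
      field_simp
    have hSn : |(S.card : ℝ)| = S.card := abs_of_nonneg (Nat.cast_nonneg _)
    rw [e, abs_div, abs_mul, hSn, abs_of_pos (pow_pos hp0 k)]
    have e2 : (2 : ℝ) ^ k * (q / B) * ((∏ i, (H i : ℝ)) * S.card / (p : ℝ) ^ k / (q : ℝ) ^ k) =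
        (2 : ℝ) ^ k * (q / B) * ((∏ i, (H i : ℝ)) / (q : ℝ) ^ k) * S.card / (p : ℝ) ^ k := by
      field_simp
    rw [e2]
    apply div_le_div_of_nonneg_right _ (pow_pos hp0 k).le
    apply mul_le_mul_of_nonneg_right _ (Nat.cast_nonneg _)
    refine h2.trans ?_
    apply mul_le_mul_of_nonneg_right _ (by positivity)
    apply mul_le_mul_of_nonneg_right _ (by positivity)
    linarith
  calc _ = |(((S.filter (fun x => ∀ i, F i x ∈ win p q (A i) (r i) (H i))).card : ℝ) -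
        (∏ i, ((win p q (A i) (r i) (H i)).card : ℝ)) * S.card / (p : ℝ) ^ k) +
        ((∏ i, ((win p q (A i) (r i) (H i)).card : ℝ)) * S.card / (p : ℝ) ^ k -
        (∏ i, (H i : ℝ)) * S.card / (p : ℝ) ^ k / (q : ℝ) ^ k)| := by
        congr 1
        ring
    _ ≤ _ := (abs_add_le _ _).trans (add_le_add h1 h3)

end

open scoped Classical in
/-- **Record prime gaps at the monomials of vectors of residues with small exponential sums.** -/
theorem resid2 (k E : ℕ) (δ : ℝ) (hδ : 0 < δ) (hδ1 : δ ≤ 1) :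
    ∃ c : ℝ, 0 < c ∧ ∀ᶠ p : ℕ in atTop,
    ∀ [Fact p.Prime], ∀ (α : Type) (S : Finset α) (F : Fin k → α → ZMod p) (A : Fin k → ℤ) (H : Fin k → ℕ)
    (E₀ : ℝ) (_ : 0 ≤ E₀) (_ : S.Nonempty)
    (_ : ∀ h : Fin k → ZMod p, h ≠ 0 → ‖∑ x ∈ S, (ZMod.stdAddChar (∑ i, h i * F i x) : ℂ)‖ ≤ E₀)
    (_ : ∀ i, (p : ℝ) ^ δ ≤ H i ∧ H i ≤ p)
    (_ : E₀ * (p : ℝ) ^ δ ≤ (∏ i, (H i : ℝ)) * S.card / (p : ℝ) ^ k),
    (∏ i, (H i : ℝ)) * S.card / (p : ℝ) ^ k * (p : ℝ) ^ (-δ) ≤
      ((S.filter (fun x => (∀ i, A i < rep (A i) (H i) (F i x) ∧ rep (A i) (H i) (F i x) ≤ A i + H i ∧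
          ((rep (A i) (H i) (F i x) : ℤ) : ZMod p) = F i x) ∧
        ∀ e : Fin k → ℕ, (∀ i, e i ≤ E) → Finset.univ.gcd e = 1 → ∀ m : ℤ,
          |(m : ℝ) - ∏ i, (rep (A i) (H i) (F i x) : ℝ) ^ e i| ≤ c * ff p →
            ∃ l : ℕ, l.Prime ∧ (l : ℝ) ≤ (p : ℝ) ^ δ ∧ (l : ℤ) ∣ m)).card : ℝ) := by
  obtain ⟨c, hc, Z₀, hmono⟩ := fmono (ι := Exps k E) k (fun e i => (e.1 i : ℕ)) (by
    intro e e' h
    apply Subtype.ext
    funext i
    exact Fin.ext (congrFun h i)) (fun e => e.2)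
  obtain ⟨η, hη⟩ : ∃ η : ℝ, η = δ / (4 * (k + 2)) := ⟨_, rfl⟩
  have hk2 : (0 : ℝ) < 4 * (k + 2) := by positivity
  have hη0 : 0 < η := by rw [hη]; positivity
  have hηk : η * (k + 2) = δ / 4 := by rw [hη]; field_simp
  have hη1 : η ≤ 1 / 8 := by
    rw [hη, div_le_iff₀ hk2]
    have : (0 : ℝ) ≤ k := Nat.cast_nonneg k
    linarith
  refine ⟨c * (η / 2 / 32), by positivity, ?_⟩
  -- the large parameters
  have hT : Tendsto (fun p : ℕ => (p : ℝ)) atTop atTop := tendsto_natCast_atTop_atTop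
  have e1 : ∀ᶠ x : ℝ in atTop, (2 + Real.log x) ^ k + (2 : ℝ) ^ k ≤ x ^ (δ / 4) := by
    have h1 : (fun x : ℝ => (2 + Real.log x) ^ (k + 1)) =o[atTop] fun x : ℝ => x ^ (δ / 4) := by
      have h2 : (fun x : ℝ => (2 + Real.log x)) =O[atTop] Real.log := by
        have h3 : (fun _ : ℝ => (2 : ℝ)) =O[atTop] Real.log :=
          (Real.isLittleO_const_log_atTop (c := 2)).isBigO
        exact h3.add (Asymptotics.isBigO_refl _ _)
      have h4 : (fun x : ℝ => Real.log x ^ (k + 1)) =o[atTop] fun x : ℝ => x ^ (δ / 4) := by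
        have h5 := isLittleO_log_rpow_rpow_atTop (s := δ / 4) ((k : ℝ) + 1) (by positivity)
        refine h5.congr' ?_ (Filter.EventuallyEq.refl _ _)
        filter_upwards with x
        have : ((k : ℝ) + 1) = ((k + 1 : ℕ) : ℝ) := by push_cast; ring
        rw [this, Real.rpow_natCast]
      exact (h2.pow (k + 1)).trans_isLittleO h4
    have h6 := h1.def (show (0 : ℝ) < 1 / 2 by positivity)
    filter_upwards [h6, eventually_ge_atTop (1 : ℝ)] with x hx hx1
    have hl := Real.log_nonneg hx1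
    rw [Real.norm_of_nonneg (by positivity), Real.norm_of_nonneg (by positivity)] at hx
    have h7 : (2 + Real.log x) ^ k ≤ (2 + Real.log x) ^ (k + 1) :=
      pow_le_pow_right₀ (by linarith) (Nat.le_succ k)
    have h8 : (2 : ℝ) ^ k ≤ (2 + Real.log x) ^ k := pow_le_pow_left₀ (by norm_num) (by linarith) k
    linarith
  have e2 : ∀ᶠ x : ℝ in atTop, 8 ≤ x ^ (δ / 4) :=
    (tendsto_rpow_atTop (by positivity)).eventually_ge_atTop 8
  have e3 : ∀ᶠ x : ℝ in atTop, max (max Z₀ 7) 2 + 1 ≤ x ^ (η / 2) :=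
    (tendsto_rpow_atTop (by positivity)).eventually_ge_atTop _
  filter_upwards [hT.eventually e1, hT.eventually e2, hT.eventually e3,
    hT.eventually (Pool.Agent.W147.PS.ff_compare (η / 2) (by positivity) (by linarith)),
    eventually_ge_atTop 2] with p hp1 hp2 hp3 hp4 hp5
  intro hpF α S F A H E₀ hE₀ hS hE hH' hV
  have hH : ∀ i, H i ≤ p := fun i => (hH' i).2
  have hp : p.Prime := hpF.out
  have hpr1 : (1 : ℝ) < p := by exact_mod_cast hp.one_lt
  have hpr0 : (0 : ℝ) < p := by linarith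
  have hSc : (0 : ℝ) < S.card := by exact_mod_cast hS.card_pos
  obtain ⟨V, hVdef⟩ : ∃ V : ℝ, V = (∏ i, (H i : ℝ)) * S.card / (p : ℝ) ^ k := ⟨_, rfl⟩
  rw [← hVdef]
  -- the modulus scale
  obtain ⟨Z, hZ⟩ : ∃ Z : ℕ, Z = ⌊(p : ℝ) ^ η⌋₊ := ⟨_, rfl⟩
  have hpη : 0 < (p : ℝ) ^ η := Real.rpow_pos_of_pos hpr0 _
  have hZle : (Z : ℝ) ≤ (p : ℝ) ^ η := by rw [hZ]; exact Nat.floor_le hpη.le
  have hhalf : (p : ℝ) ^ (η / 2) * (p : ℝ) ^ (η / 2) = (p : ℝ) ^ η := by
    rw [← Real.rpow_add hpr0]; congr 1; ring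
  obtain ⟨y, hy⟩ : ∃ y : ℝ, y = (p : ℝ) ^ (η / 2) := ⟨_, rfl⟩
  rw [← hy] at hp3 hhalf
  have hm1 : max Z₀ 7 ≤ max (max Z₀ 7) 2 := le_max_left _ _
  have hm2 : (2 : ℝ) ≤ max (max Z₀ 7) 2 := le_max_right _ _
  have hm3 : Z₀ ≤ max Z₀ 7 := le_max_left _ _
  have hm4 : (7 : ℝ) ≤ max Z₀ 7 := le_max_right _ _
  have hyZ : y ≤ Z := by
    have h1 : (p : ℝ) ^ η < Z + 1 := by rw [hZ]; exact Nat.lt_floor_add_one _
    rw [← hhalf] at h1
    nlinarith
  have hZ7 : (7 : ℝ) ≤ Z := by linarith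
  have hZZ₀ : Z₀ ≤ (Z : ℝ) := by linarith
  have hZ6 : 6 ≤ Z := by
    have : (6 : ℝ) ≤ Z := by linarith
    exact_mod_cast this
  have hZp : (Z : ℝ) < p := by
    refine hZle.trans_lt ?_
    calc (p : ℝ) ^ η < (p : ℝ) ^ (1 : ℝ) := Real.rpow_lt_rpow_of_exponent_lt hpr1 (by linarith)
      _ = p := Real.rpow_one _
  -- the family
  obtain ⟨s, hs⟩ : ∃ s : Finset α, s = S.filter (fun x => ∀ i, F i x ∈ win p 1 (A i) 0 (H i)) := ⟨_, rfl⟩
  obtain ⟨w, hw⟩ : ∃ w : α → Fin k → ℤ, w = fun x i => rep (A i) (H i) (F i x) := ⟨_, rfl⟩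
  have hws : ∀ x ∈ s, ∀ i, A i < w x i ∧ w x i ≤ A i + H i ∧ ((w x i : ℤ) : ZMod p) = F i x := by
    intro x hx i
    rw [hs, mem_filter] at hx
    obtain ⟨n, h1, h2, -, h4⟩ := mem_win.1 (hx.2 i)
    rw [hw]
    exact rep_spec ⟨n, h1, h2, h4⟩
  have hclass : ∀ q : ℕ, ∀ r : Fin k → ℤ, s.filter (fun x => ∀ j, (q : ℤ) ∣ w x j - r j) =
      S.filter (fun x => ∀ i, F i x ∈ win p q (A i) (r i) (H i)) := by
    intro q r
    ext x
    rw [mem_filter, mem_filter]
    constructor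
    · rintro ⟨h1, h2⟩
      have h3 := hws x h1
      rw [hs, mem_filter] at h1
      refine ⟨h1.1, fun i => mem_win.2 ⟨w x i, (h3 i).1, (h3 i).2.1, h2 i, (h3 i).2.2⟩⟩
    · rintro ⟨h1, h2⟩
      have h3 : x ∈ s := by
        rw [hs, mem_filter]
        refine ⟨h1, fun i => ?_⟩
        obtain ⟨n, a1, a2, a3, a4⟩ := mem_win.1 (h2 i)
        exact mem_win.2 ⟨n, a1, a2, by simp, a4⟩
      refine ⟨h3, fun i => ?_⟩
      obtain ⟨n, a1, a2, a3, a4⟩ := mem_win.1 (h2 i)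
      obtain ⟨b1, b2, b3⟩ := hws x h3 i
      have h4 : w x i = n := eq_of_win (hH i) b1 b2 a1 a2 (by rw [b3, a4])
      rw [h4]
      exact a3
  have hlog : 0 ≤ Real.log p := Real.log_nonneg hpr1.le
  obtain ⟨g, hg⟩ : ∃ g : ℝ, g = (p : ℝ) ^ (δ / 4) := ⟨_, rfl⟩
  have hg8 : 8 ≤ g := by rw [hg]; exact hp2
  have hg1 : 1 ≤ g := by linarith
  have hg0 : 0 < g := by linarith
  rw [← hg] at hp1
  have hg4 : (p : ℝ) ^ δ = g ^ 4 := by
    rw [hg, ← Real.rpow_natCast, ← Real.rpow_mul hpr0.le]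
    congr 1
    push_cast
    ring
  have hZk : (Z : ℝ) ^ (k + 2) ≤ g := by
    calc (Z : ℝ) ^ (k + 2) ≤ ((p : ℝ) ^ η) ^ (k + 2) :=
          pow_le_pow_left₀ (Nat.cast_nonneg _) hZle _
      _ = g := by
          rw [hg, ← Real.rpow_natCast, ← Real.rpow_mul hpr0.le]
          congr 1
          push_cast
          exact hηk
  have hZg : (Z : ℝ) ≤ g := by
    refine le_trans ?_ hZk
    calc (Z : ℝ) = (Z : ℝ) ^ 1 := (pow_one _).symm
      _ ≤ (Z : ℝ) ^ (k + 2) := pow_le_pow_right₀ (by linarith) (by omega)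
  have hPr0 : 0 ≤ ∏ i, (H i : ℝ) := Finset.prod_nonneg fun i _ => Nat.cast_nonneg _
  have hVpos : 0 < V := by
    have h1 : 0 < ∏ i, (H i : ℝ) := Finset.prod_pos fun i _ =>
      lt_of_lt_of_le (Real.rpow_pos_of_pos hpr0 _) (hH' i).1
    rw [hVdef]
    positivity
  have hVlow : E₀ * g ^ 4 ≤ V := by
    rw [hVdef, ← hg4]
    exact hV
  obtain ⟨T, hTdef⟩ : ∃ T : ℝ, T = V / g ^ 2 := ⟨_, rfl⟩
  have hTg : T * g ^ 2 = V := by rw [hTdef]; field_simp
  have hT0 : 0 < T := by rw [hTdef]; positivity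
  have hcount : ∀ q : ℕ, 1 ≤ q → q ≤ Z → ∀ r : Fin k → ℤ,
      |((S.filter (fun x => ∀ i, F i x ∈ win p q (A i) (r i) (H i))).card : ℝ) - V / (q : ℝ) ^ k| ≤ T := by
    intro q hq hqZ r
    have hqZR : (q : ℝ) ≤ Z := by exact_mod_cast hqZ
    have hqp : q < p := by
      have : (q : ℝ) < p := by linarith
      exact_mod_cast this
    have hq1 : (1 : ℝ) ≤ q := by exact_mod_cast hq
    have h1 := win_count2 k S F _ hE₀ hE q hq hqp A r H hH ((p : ℝ) ^ δ)
      (by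
        rw [hg4]
        have : g ≤ g ^ 4 := by
          calc g = g ^ 1 := (pow_one g).symm
            _ ≤ g ^ 4 := pow_le_pow_right₀ hg1 (by norm_num)
        linarith)
      (fun i => (hH' i).1)
    rw [← hVdef] at h1
    refine h1.trans ?_
    have hqk : (1 : ℝ) ≤ (q : ℝ) ^ k := one_le_pow₀ hq1
    have h2 : E₀ ≤ V / g ^ 4 := by
      rw [le_div_iff₀ (by positivity)]
      exact hVlow
    have h3 : V / (q : ℝ) ^ k ≤ V := div_le_self hVpos.le hqk
    have h4 : (q : ℝ) / (p : ℝ) ^ δ ≤ g / g ^ 4 := by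
      rw [hg4]
      apply div_le_div_of_nonneg_right _ (by positivity)
      linarith
    have h5 : 0 ≤ (2 + Real.log p) ^ k := by positivity
    calc E₀ * (2 + Real.log p) ^ k +
          (2 : ℝ) ^ k * (q / (p : ℝ) ^ δ) * (V / (q : ℝ) ^ k)
        ≤ V / g ^ 4 * (2 + Real.log p) ^ k + (2 : ℝ) ^ k * (g / g ^ 4) * V := by
          apply add_le_add
          · exact mul_le_mul_of_nonneg_right h2 h5
          · apply mul_le_mul _ h3 (by positivity) (by positivity)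
            exact mul_le_mul_of_nonneg_left h4 (by positivity)
      _ = V / g ^ 4 * ((2 + Real.log p) ^ k + (2 : ℝ) ^ k * g) := by ring
      _ ≤ V / g ^ 4 * (g * g) := by
          apply mul_le_mul_of_nonneg_left _ (by positivity)
          have h6 : (2 + Real.log p) ^ k ≤ (2 + Real.log p) ^ k * g := by
            nlinarith
          have h7 : ((2 + Real.log p) ^ k + (2 : ℝ) ^ k) * g ≤ g * g :=
            mul_le_mul_of_nonneg_right hp1 hg0.le
          nlinarith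
      _ = T := by
          rw [hTdef]
          field_simp
  have hZk0 : (0 : ℝ) < (Z : ℝ) ^ (k + 2) := by positivity
  have hsV : |(s.card : ℝ) - V| ≤ T := by
    have h1 := hcount 1 le_rfl (by omega) (fun _ => 0)
    rw [← hs] at h1
    simp only [Nat.cast_one, one_pow, div_one] at h1
    exact h1
  have hTV : T * 64 ≤ V := by
    rw [← hTg]
    have : (64 : ℝ) ≤ g ^ 2 := by nlinarith
    exact mul_le_mul_of_nonneg_left this hT0.le
  have hsV2 : V / 2 ≤ s.card := by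
    have := (abs_le.1 hsV).1
    linarith
  -- the good members
  obtain ⟨good, hgood⟩ : ∃ good : α → Prop, good = fun x => ∀ e : Exps k E, ∀ h : ℤ,
      |(h : ℝ)| ≤ c * ff Z → ∃ l : ℕ, l.Prime ∧ (l : ℝ) ≤ (Z : ℝ) ^ (1 / 10 : ℝ) ∧
        (l : ℤ) ∣ (∏ i, w x i ^ (e.1 i : ℕ)) + h := ⟨_, rfl⟩
  have hmain := fam_count (d := k) (Z := Z) s w hZ6 (by
      rw [← Finset.card_pos]
      have : (0 : ℝ) < s.card := by linarith
      exact_mod_cast this)
    (by
      intro q hq hqZ r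
      rw [hclass q r]
      have h1 := hcount q hq hqZ r
      have hq1 : (1 : ℝ) ≤ (q : ℝ) ^ k := one_le_pow₀ (by exact_mod_cast hq)
      have h2 : |V / (q : ℝ) ^ k - s.card / (q : ℝ) ^ k| ≤ T := by
        rw [← sub_div, abs_div, abs_of_pos (by linarith : (0 : ℝ) < (q : ℝ) ^ k), abs_sub_comm]
        exact (div_le_self (abs_nonneg _) hq1).trans hsV
      have h3 : |((S.filter (fun x => ∀ i, F i x ∈ win p q (A i) (r i) (H i))).card : ℝ) -
          s.card / (q : ℝ) ^ k| ≤ 2 * T := by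
        rw [abs_le] at h1 h2 ⊢
        constructor <;> linarith [h1.1, h1.2, h2.1, h2.2]
      refine h3.trans ?_
      rw [le_div_iff₀ hZk0]
      calc 2 * T * (Z : ℝ) ^ (k + 2) ≤ 2 * T * g := mul_le_mul_of_nonneg_left hZk (by positivity)
        _ ≤ T * g ^ 2 / 2 := by
            have h4 : 0 ≤ T * g * (g - 4) :=
              mul_nonneg (mul_nonneg hT0.le (by linarith)) (by linarith)
            nlinarith
        _ = V / 2 := by rw [hTg]
        _ ≤ s.card := hsV2)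
    good (by
      intro t ht
      obtain ⟨a, ha, h⟩ := hmono Z hZZ₀ α t w ht
      refine ⟨a, ha, ?_⟩
      rw [hgood]
      exact fun e h' hh => h e h' hh)
  have hfinal : V * (p : ℝ) ^ (-δ) ≤ (s.card : ℝ) / (Z : ℝ) ^ (k + 2) := by
    rw [le_div_iff₀ hZk0, Real.rpow_neg hpr0.le, ← div_eq_mul_inv, div_mul_eq_mul_div,
      div_le_iff₀ (Real.rpow_pos_of_pos hpr0 _), hg4]
    have h2 : 2 * g ≤ g ^ 4 := by
      have h3 : (8 : ℝ) ≤ g ^ 3 := by
        calc (8 : ℝ) ≤ g := hg8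
          _ = g ^ 1 := (pow_one g).symm
          _ ≤ g ^ 3 := pow_le_pow_right₀ hg1 (by norm_num)
      have h4 : g ^ 4 = g ^ 3 * g := by ring
      rw [h4]
      nlinarith
    calc V * (Z : ℝ) ^ (k + 2) ≤ V * g := mul_le_mul_of_nonneg_left hZk hVpos.le
      _ = V / 2 * (2 * g) := by ring
      _ ≤ s.card * g ^ 4 := mul_le_mul hsV2 h2 (by linarith) (by linarith)
  refine (hfinal.trans hmain).trans ?_
  rw [Nat.cast_le]
  apply Finset.card_le_card
  intro x hx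
  rw [mem_filter] at hx
  obtain ⟨hx1, hx2⟩ := hx
  have hx3 := hws x hx1
  rw [hw] at hx3
  rw [hs, mem_filter] at hx1
  rw [mem_filter]
  refine ⟨hx1.1, hx3, fun e he hgcd m hm => ?_⟩
  rw [hgood] at hx2
  have hff : c * (η / 2 / 32) * ff p ≤ c * ff Z := by
    have h1 := (hp4.2 Z (by rw [← hy]; exact hyZ) (by nlinarith)).1
    calc c * (η / 2 / 32) * ff p = c * (η / 2 / 32 * ff p) := by ring
      _ ≤ c * ff Z := mul_le_mul_of_nonneg_left h1 hc.le
  obtain ⟨l, hl1, hl2, hl3⟩ := hx2 ⟨fun i => ⟨e i, Nat.lt_succ_of_le (he i)⟩, hgcd⟩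
    (m - ∏ i, w x i ^ e i) (by
      push_cast
      rw [hw]
      exact hm.trans hff)
  refine ⟨l, hl1, hl2.trans ?_, ?_⟩
  · calc (Z : ℝ) ^ (1 / 10 : ℝ) ≤ ((p : ℝ) ^ η) ^ (1 / 10 : ℝ) :=
          Real.rpow_le_rpow (Nat.cast_nonneg _) hZle (by norm_num)
      _ = (p : ℝ) ^ (η * (1 / 10)) := by rw [← Real.rpow_mul hpr0.le]
      _ ≤ (p : ℝ) ^ δ := by
          apply Real.rpow_le_rpow_of_exponent_le hpr1.le
          have h1 : η ≤ δ := by
            rw [hη]
            apply div_le_self hδ.le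
            have : (0 : ℝ) ≤ k := Nat.cast_nonneg k
            linarith
          linarith
  · simp only at hl3
    have e : (∏ i, w x i ^ e i) + (m - ∏ i, w x i ^ e i) = m := by ring
    rwa [e] at hl3

end Pool.Agent.N389.CI
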